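import Mathlib
import Pool.Agent.Helper672.HZ.Main
import Pool.Agent.Helper672.HZ.FF

/-!
# A Borel, non-σ-compact group generated by a Hurewicz subspace

The continuum hypothesis can be forced over any ground model, and it implies that the Borel
subgroup `Fin × Fin` (almost all rows finite) of the compact group `(ℤ/2)^(ℕ × ℕ)`, which is not
σ-compact, is generated by a subspace with the Hurewicz property.
-/

set_option autoImplicit false

namespace Pool.Agent.Results.MP_88659e_gt.ConsistentlyYes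

open Cardinal Pool.Agent.Helper672.HZ Pool.Agent.Helper672.HZ.ForceCH

theorem polish_G : PolishSpace (ℕ × ℕ → Multiplicative (ZMod 2)) := by
  have : TopologicalSpace.MetrizableSpace (ℕ × ℕ → Multiplicative (ZMod 2)) :=
    TopologicalSpace.metrizableSpace_of_t3_secondCountable _
  let _ := TopologicalSpace.metrizableSpaceMetric (ℕ × ℕ → Multiplicative (ZMod 2))
  infer_instance

theorem result :
    (∃ (P : Type) (_ : Preorder P), Nonempty P ∧
      ∀ p : P, p ∈ OmegaOnePreserved P ∧ p ∈ CHHolds P) ∧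
    ((ℵ₁ : Cardinal.{0}) = 𝔠 →
      ∃ (G : Type) (_ : TopologicalSpace G) (_ : PolishSpace G) (_ : CommGroup G)
        (_ : IsTopologicalGroup G) (_ : CompactSpace G) (X : Set G),
        @MeasurableSet G (borel G) ((Subgroup.closure X : Subgroup G) : Set G) ∧
        ¬ IsSigmaCompact ((Subgroup.closure X : Subgroup G) : Set G) ∧
        (∀ U : ℕ → Set (Set G), (∀ n, (∀ u ∈ U n, IsOpen u) ∧ X ⊆ ⋃₀ U n) →
          ∃ F : ℕ → Finset (Set G), (∀ n, (↑(F n) : Set (Set G)) ⊆ U n) ∧
            ∀ x ∈ X, ∀ᶠ n in Filter.atTop, x ∈ ⋃₀ ((↑(F n) : Set (Set G)))) ∧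
        ∀ h ∈ Subgroup.closure X, ∃ x ∈ X, ∃ y ∈ X, x * y = h) := by
  refine ⟨?_, fun hCH => ?_⟩
  · obtain ⟨P, i, hne, hP⟩ := exists_forcing
    exact ⟨P, i, hne, fun p => ⟨(hP p).1, (hP p).2.2⟩⟩
  · obtain ⟨X, h1, h2, h3⟩ := exists_X hCH
    have hcl := closure_eq h1 h2
    refine ⟨ℕ × ℕ → Multiplicative (ZMod 2), inferInstance, polish_G, inferInstance,
      inferInstance, inferInstance, X, ?_, ?_, h3, ?_⟩
    · rw [hcl]; exact measurable_H
    · rw [hcl]; exact not_sigmaCompact_H
    · intro h hh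
      have : h ∈ H := by rw [← hcl]; exact hh
      exact h2 h this

end Pool.Agent.Results.MP_88659e_gt.ConsistentlyYes
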